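import Mathlib
import Pool.Agent.H617.WR.M

set_option autoImplicit false

/-!
# The Moebius function at almost all shifted primes of windows of length `(log N) ^ θ`, `θ > 1 / 2`

The question is whether `∑ μ(n) Λ(n - 1)` has any cancellation. We let the shift move in a window of length
`H ≥ (log N) ^ θ` and show that for every `θ` between `1 / 2` and `1`, all shifts `h` of the window but `ε H`, and all
`X ≤ N` the sum `∑ n ≤ X, b n Λ(n + a) μ(n + B + h)` is at most `(1 - θ) / θ + ε` times the trivial bound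
`∑ n ≤ N, Λ(n + a) |μ(n + B + h)|` for the same shift.

The block estimate (a mean square estimate over the multiples of the primes of a dyadic block) and the averaged two
point theorem (Matomäki-Radziwiłł-Tao) are those of the library files `E8helper16/SL`, `TH823/MRS` and `Helper82K9/EL`.
New are the use of the identity of Ramaré for the primes between `(log N) ^ (1 - θ)` and `(log N) ^ θ`, and the second
moment of the number of the shifts of an arbitrary set (inside of the classes which are not divisible by small squares)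
which have no prime divisor in this range, along shifted primes.
-/

namespace Pool.Agent.Results.MP_0bfb7f_nt.AlmostAllShiftsH617
open Finset
open Pool.Agent.H617.WH
open Pool.Agent.H617.WR

/-- **Theorem.** Let `1 / 2 < θ < 1` and `ε > 0`. There is an `N₀` such that for all `N ≥ N₀`,
`(log N) ^ θ ≤ H ≤ N`, `a ≤ N`, `B ≤ N` and all weights `b` of modulus at most one: for all shifts `h ≤ H` with the
exception of at most `ε H` of them, and for all `X ≤ N`,
`|∑ n ≤ X, b n Λ(n + a) μ(n + B + h)| ≤ ((1 - θ) / θ + ε) ∑ n ≤ N, Λ(n + a) |μ(n + B + h)|`. -/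
theorem result (θ : ℝ) (hθ : 1 / 2 < θ) (hθ' : θ < 1) (ε : ℝ) (hε : 0 < ε) :
    ∃ N₀ : ℕ, ∀ N H : ℕ, N₀ ≤ N → Real.log N ^ θ ≤ H → H ≤ N → ∀ a : ℕ, a ≤ N → ∀ B : ℕ, B ≤ N →
    ∀ b : ℕ → ℂ, (∀ n, ‖b n‖ ≤ 1) →
    ∃ E : Finset ℕ, (E.card : ℝ) ≤ ε * H ∧ ∀ h : ℕ, 1 ≤ h → h ≤ H → h ∉ E → ∀ X : ℕ, X ≤ N →
      ‖∑ n ∈ Icc 1 X, b n * ((ArithmeticFunction.vonMangoldt (n + a) : ℝ) : ℂ) *
        ((ArithmeticFunction.moebius (n + B + h) : ℤ) : ℂ)‖ ≤
      ((1 - θ) / θ + ε) * ∑ n ∈ Icc 1 N, ArithmeticFunction.vonMangoldt (n + a) *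
        |((ArithmeticFunction.moebius (n + B + h) : ℤ) : ℝ)| := by
  classical
  obtain ⟨N₁, h1⟩ := mu1 θ hθ hθ' (ε ^ 2 / 24) (by positivity)
  obtain ⟨N₃, h3⟩ := low
  refine ⟨N₁ + N₃ + 1, fun N H hN hH1 hH2 a ha B hB b hb => ?_⟩
  have hN0 : (0 : ℝ) < N := by exact_mod_cast (by omega : 0 < N)
  have hIoc : ∀ Y : ℕ, (Ioc 0 Y : Finset ℕ) = Icc 1 Y := by
    intro Y
    ext n
    rw [mem_Icc, mem_Ioc]
    omega
  obtain ⟨s, hs⟩ : ∃ s : ℕ → ℕ → ℝ, s = fun X h => ‖∑ n ∈ Icc 1 X, b n * ((ArithmeticFunction.vonMangoldt (n + a) : ℝ) : ℂ) *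
        ((ArithmeticFunction.moebius (n + B + h) : ℤ) : ℂ)‖ := ⟨_, rfl⟩
  have hse : ∀ X h, ‖∑ n ∈ Icc 1 X, b n * ((ArithmeticFunction.vonMangoldt (n + a) : ℝ) : ℂ) *
        ((ArithmeticFunction.moebius (n + B + h) : ℤ) : ℂ)‖ = s X h := fun X h => by rw [hs]
  simp only [hse]
  obtain ⟨T, hT⟩ : ∃ T : ℕ → ℝ, T = fun h => ∑ n ∈ Icc 1 N, ArithmeticFunction.vonMangoldt (n + a) *
        |((ArithmeticFunction.moebius (n + B + h) : ℤ) : ℝ)| := ⟨_, rfl⟩
  have hTe : ∀ h, ∑ n ∈ Icc 1 N, ArithmeticFunction.vonMangoldt (n + a) *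
        |((ArithmeticFunction.moebius (n + B + h) : ℤ) : ℝ)| = T h := fun h => by rw [hT]
  simp only [hTe]
  obtain ⟨ρ, hρ⟩ : ∃ ρ, ρ = (1 - θ) / θ := ⟨_, rfl⟩
  rw [← hρ]
  have hX : ∀ h : ℕ, ∃ X : ℕ, X ≤ N ∧ ((∃ Y ≤ N, (ρ + ε) * T h < s Y h) → (ρ + ε) * T h < s X h) := by
    intro h
    by_cases q : ∃ Y ≤ N, (ρ + ε) * T h < s Y h
    · obtain ⟨Y, hY, hY'⟩ := q
      exact ⟨Y, hY, fun _ => hY'⟩
    · exact ⟨0, Nat.zero_le _, fun q' => absurd q' q⟩
  choose X hX1 hX2 using hX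
  refine ⟨(Icc 1 H).filter (fun h => ∃ Y ≤ N, (ρ + ε) * T h < s Y h), ?_, ?_⟩
  · obtain ⟨E, hE⟩ : ∃ E, E = (Icc 1 H).filter (fun h => ∃ Y ≤ N, (ρ + ε) * T h < s Y h) := ⟨_, rfl⟩
    rw [← hE]
    have hES : E ⊆ Icc 1 H := by rw [hE]; exact filter_subset _ _
    have key := h1 N (by omega) H hH1 hH2 E hES a ha B hB b hb X hX1
    simp only [hIoc] at key
    have e1 : ∀ h ∈ E, ‖∑ n ∈ Icc 1 (X h), b n * (ArithmeticFunction.vonMangoldt (n + a) : ℂ) * (muR (n + (B + h)) : ℂ)‖ = s (X h) h := by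
      intro h _
      rw [hs]
      simp only
      congr 1
      apply sum_congr rfl
      intro n _
      unfold muR
      rw [← add_assoc]
      push_cast
      rfl
    rw [sum_congr rfl e1] at key
    have e2 : ∀ h ∈ E, ∑ n ∈ Icc 1 N, ArithmeticFunction.vonMangoldt (n + a) * am (n + (B + h)) = T h := by
      intro h _
      rw [hT]
      simp only
      apply sum_congr rfl
      intro n _
      unfold am
      rw [← add_assoc]
    rw [sum_congr rfl e2, ← hρ] at key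
    have g1 : ∀ h ∈ E, (ρ + ε) * T h ≤ s (X h) h := by
      intro h hh
      rw [hE, mem_filter] at hh
      exact (hX2 h hh.2).le
    have g2 := sum_le_sum g1
    rw [← mul_sum] at g2
    have hlow : (E.card : ℝ) * (N / 24) ≤ ∑ h ∈ E, T h := by
      have q1 : ∀ h ∈ E, (N : ℝ) / 24 ≤ T h := by
        intro h hh
        have hh' := mem_Icc.1 (hES hh)
        rw [← e2 h hh, ← hIoc]
        exact h3 N (by omega) a (B + h) ha (by omega)
      have q2 := sum_le_sum q1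
      rw [sum_const, nsmul_eq_mul] at q2
      exact q2
    have g3 : ((E.card : ℝ) * ε) * (N / 24) ≤ (ε * (ε * H)) * (N / 24) := by
      calc ((E.card : ℝ) * ε) * (N / 24) = ε * (E.card * (N / 24)) := by ring
        _ ≤ ε * ∑ h ∈ E, T h := mul_le_mul_of_nonneg_left hlow hε.le
        _ = (ρ + ε) * ∑ h ∈ E, T h - ρ * ∑ h ∈ E, T h := by ring
        _ ≤ ε ^ 2 / 24 * (H * N) := by linarith
        _ = _ := by ring
    have g4 := le_of_mul_le_mul_right g3 (by positivity)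
    have g5 : ε * (E.card : ℝ) ≤ ε * (ε * H) := by
      calc ε * (E.card : ℝ) = E.card * ε := by ring
        _ ≤ _ := g4
    exact le_of_mul_le_mul_left g5 hε
  · intro h a1 a2 a3 Y hY
    by_contra q
    push Not at q
    exact a3 (mem_filter.2 ⟨mem_Icc.2 ⟨a1, a2⟩, Y, hY, q⟩)

end Pool.Agent.Results.MP_0bfb7f_nt.AlmostAllShiftsH617
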