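import Pool.Agent.H530.HyE

/-!
# The Möbius function and products of sieve models of the von Mangoldt function

`Lam y m` is the sieve model of `Λ`: it is `∏_{p ≤ y} (1 - 1/p)⁻¹` if `m` has no prime factor up to `y`,
and `0` otherwise. For `y ^ K ≤ X`, every number of factors `Lam y (n + s)`, with shifts in a window of
length `A log y` anywhere, every bounded function of the configuration of all the `t` in the window such
that `n + t` has no prime factor up to `y`, and one factor `μ(a n + b)`, `gcd(a, b) = 1`, or `λ(a n + b)`, any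
`a ≥ 1` and `b`, the correlation is `o` of the correlation without this factor; and without it the
singular series is the right constant.
-/

set_option autoImplicit false

namespace Pool.Agent.Results.MP_0bfb7f_nt.MobiusSieveModel

open Finset

/-- `m` has no prime factor up to `y` -/
def Rough (y m : ℕ) : Prop := ∀ p : ℕ, p.Prime → p ∣ m → y < p

/-- the Liouville function on the integers, `0` at `0` -/
noncomputable def lam (m : ℤ) : ℝ := if m = 0 then 0 else (-1) ^ ArithmeticFunction.cardFactors m.natAbs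

open Classical in
/-- the sieve model of the von Mangoldt function -/
noncomputable def Lam (y m : ℕ) : ℝ :=
  if Rough y m then ∏ p ∈ (Icc 1 y).filter Nat.Prime, (1 - 1 / (p : ℝ))⁻¹ else 0

open Classical in
/-- the `t ∈ [1, T]` such that `n + Z + t` has no prime factor up to `y` -/
noncomputable def conf (y Z T n : ℕ) : Finset ℕ := (Icc 1 T).filter (fun t => Rough y (n + Z + t))

/-- the truncated singular series of `S` -/
noncomputable def Sing (y : ℕ) (S : Finset ℕ) : ℝ :=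
  ∏ p ∈ (Icc 1 y).filter Nat.Prime,
    (1 - ((S.image (fun s => s % p)).card : ℝ) / p) * ((1 - 1 / (p : ℝ))⁻¹) ^ S.card

lemma rough_iff (y m : ℕ) : Pool.Agent.H530.Hv.Rgh y m ↔ Rough y m := by
  unfold Rough Pool.Agent.H530.Hv.Rgh
  constructor
  · intro h p hp hd
    by_contra hc
    exact h p (Pool.Agent.H373R2.T7.mem_pz.2 ⟨by omega, hp⟩) hd
  · intro h p hp hd
    have := Pool.Agent.H373R2.T7.mem_pz.1 hp
    have := h p this.2 hd
    omega

lemma pz_eq (y : ℕ) : Pool.Agent.H373R2.T7.pz y = (Icc 1 y).filter Nat.Prime := rfl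

lemma lam_eq (m : ℤ) : Pool.Agent.H530.Ha.lz m = lam m := by
  unfold Pool.Agent.H530.Ha.lz lam
  split_ifs with h
  · rw [h]
    simp [Pool.Agent.H530.Ha.la_zero]
  · rw [Pool.Agent.H530.Ha.la_eq (Int.natAbs_ne_zero.2 h)]

open Pool.Agent.H530.Hv Pool.Agent.H530.Ha Pool.Agent.H373R2.T7 Pool.Agent.W123.RP Pool.Agent.W123.RU Pool.Agent.TH464.PO in
/-- the number of residues -/
lemma nu_eq (Z p : ℕ) (hp : p.Prime) (S : Finset ℕ) :
    nuB (QH (Q1 Z) S) p = (S.image (fun s => s % p)).card := by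
  classical
  induction S using Finset.induction_on with
  | empty =>
    rw [image_empty, card_empty]
    unfold nuB QH
    simp
  | insert u S _ ih =>
    rw [nu_ins Z S u p hp, ih, image_insert]
    by_cases h : ∃ s ∈ S, s ≡ u [MOD p]
    · have hm : u % p ∈ S.image (fun s => s % p) := by
        obtain ⟨s, hs, hsu⟩ := h
        rw [mem_image]
        exact ⟨s, hs, hsu⟩
      rw [if_pos h, insert_eq_of_mem hm, add_zero]
    · rw [if_neg h, card_insert_of_notMem]
      intro hc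
      rw [mem_image] at hc
      obtain ⟨s, hs, hsu⟩ := hc
      exact h ⟨s, hs, hsu⟩

/-- the value of the model on the sifted numbers -/
noncomputable def W (y : ℕ) : ℝ := ∏ p ∈ (Icc 1 y).filter Nat.Prime, (1 - 1 / (p : ℝ))⁻¹

lemma W_nonneg (y : ℕ) : 0 ≤ W y := by
  unfold W
  apply prod_nonneg
  intro p hp
  have h1 : (1 : ℝ) ≤ p := by exact_mod_cast (mem_filter.1 hp).2.one_lt.le
  apply inv_nonneg.2
  have : 1 / (p : ℝ) ≤ 1 := by rw [div_le_one (by linarith)]; exact h1
  linarith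

open Pool.Agent.H530.Hv in
/-- a weighted sum is a sum over the sifted tuples -/
lemma sum_eq (y Z X : ℕ) (S : Finset ℕ) (F : ℕ → ℝ) :
    ∑ n ∈ Icc 1 X, (∏ t ∈ S, Lam y (n + Z + t)) * F n = W y ^ S.card * ∑ n ∈ GS y Z X S, F n := by
  classical
  unfold GS
  rw [sum_filter, mul_sum]
  apply sum_congr rfl
  intro n _
  split_ifs with h
  · congr 1
    rw [← prod_const]
    apply prod_congr rfl
    intro t ht
    unfold Lam W
    rw [if_pos ((rough_iff y _).1 (h t ht))]
  · push Not at h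
    obtain ⟨t, ht, h⟩ := h
    rw [prod_eq_zero ht, zero_mul, mul_zero]
    unfold Lam
    rw [if_neg fun hc => h ((rough_iff y _).2 hc)]

open Pool.Agent.H530.Hv Pool.Agent.H530.Ha Pool.Agent.H373R2.T7 Pool.Agent.W123.RP Pool.Agent.W123.RU Pool.Agent.TH464.PO in
lemma sing_eq (y Z : ℕ) (S : Finset ℕ) :
    Sing y S = W y ^ S.card * ∏ p ∈ Pool.Agent.H373R2.T7.pz y, (1 - (nuB (QH (Q1 Z) S) p : ℝ) / p) := by
  unfold Sing W
  rw [pz_eq, prod_mul_distrib, ← prod_pow, mul_comm]
  congr 1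
  apply prod_congr rfl
  intro p hp
  rw [nu_eq Z p (mem_filter.1 hp).2]

lemma conf_eq (y Z T n : ℕ) : Pool.Agent.H530.Hv.Cfg y Z T n = conf y Z T n := by
  classical
  unfold Pool.Agent.H530.Hv.Cfg conf
  simp only [rough_iff]

/-- the Möbius function on the integers, `0` at `0` -/
noncomputable def mob (m : ℤ) : ℝ := (ArithmeticFunction.moebius m.natAbs : ℝ)

open Pool.Agent.H530.Hv Pool.Agent.H530.Ha Pool.Agent.H373R2.T7 Pool.Agent.W123.RP Pool.Agent.W123.RU Pool.Agent.TH464.PO in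
/-- **Joint correlations of the sieve model of `Λ` with the Möbius function and the Liouville function.** -/
theorem result (k : ℕ) (A ε : ℝ) (hA : 0 < A) (hε : 0 < ε) : ∃ K : ℕ, 1 ≤ K ∧ ∀ B : ℕ, ∃ X0 : ℕ,
    ∀ X y Z T : ℕ, ∀ S : Finset ℕ, X0 ≤ X → X0 ≤ y → y ^ K ≤ X → (T : ℝ) ≤ A * Real.log y →
      S ⊆ Icc 1 T → S.card ≤ k →
      |∑ n ∈ Icc 1 X, ∏ t ∈ S, Lam y (n + Z + t) - X * Sing y S| ≤ ε * (X * Sing y S) ∧
      ∀ f : Finset ℕ → ℝ, (∀ C, |f C| ≤ 1) → ∀ (a : ℕ) (b : ℤ), 1 ≤ a → (a : ℝ) ≤ Real.log X ^ B →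
        |(b : ℝ)| ≤ X * Real.log X ^ B →
        (Int.gcd (a : ℤ) b = 1 →
          |∑ n ∈ Icc 1 X, (∏ t ∈ S, Lam y (n + Z + t)) * (f (conf y Z T n) * mob (a * n + b))| ≤
            ε * (X * Sing y S)) ∧
        |∑ n ∈ Icc 1 X, (∏ t ∈ S, Lam y (n + Z + t)) * (f (conf y Z T n) * lam (a * n + b))| ≤
          ε * (X * Sing y S) := by
  classical
  obtain ⟨e, he⟩ : ∃ e : ℝ, e = min (1 / 2) (ε / 2) := ⟨_, rfl⟩
  have he0 : 0 < e := by rw [he]; exact lt_min (by norm_num) (by positivity)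
  have he1 : e ≤ 1 / 2 := by rw [he]; exact min_le_left _ _
  have he2 : e ≤ ε / 2 := by rw [he]; exact min_le_right _ _
  obtain ⟨c, _, H0⟩ := all_F (k + 1) (by omega)
  obtain ⟨K0, hK0, H0⟩ := H0 e he0
  obtain ⟨K1, hK1, H1⟩ := decorF k A e hA he0
  obtain ⟨K2, hK2, H2⟩ := decorM k A e hA he0
  refine ⟨K0 + K1 + K2, by omega, fun B => ?_⟩
  obtain ⟨X0, y0, H0⟩ := H0 0
  obtain ⟨X1, y1, H1⟩ := H1 B
  obtain ⟨X2, y2, H2⟩ := H2 B
  refine ⟨X0 + X1 + X2 + y0 + y1 + y2 + k + 1, ?_⟩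
  intro X y Z T S hX hy hyX hT hST hSk
  obtain ⟨V, hV⟩ : ∃ V : ℝ, V = ∏ p ∈ Pool.Agent.H373R2.T7.pz y, (1 - (nuB (QH (Q1 Z) S) p : ℝ) / p) := ⟨_, rfl⟩
  have hS := sing_eq y Z S
  rw [← hV] at hS
  have hV0 : 0 ≤ V := by
    rw [hV]
    apply prod_nonneg
    intro p hp
    have h1 : (1 : ℝ) ≤ p := by exact_mod_cast (Pool.Agent.H373R2.T7.mem_pz.1 hp).2.one_lt.le
    have h2 : (nuB (QH (Q1 Z) S) p : ℝ) ≤ p := by exact_mod_cast nuB_le _ p
    have : (nuB (QH (Q1 Z) S) p : ℝ) / p ≤ 1 := by rw [div_le_one (by linarith)]; exact h2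
    linarith
  obtain ⟨G, hG⟩ : ∃ G : ℝ, G = ((GS y Z X S).card : ℝ) := ⟨_, rfl⟩
  have hG0 : 0 ≤ G := by rw [hG]; exact Nat.cast_nonneg _
  -- the number of sifted tuples
  have hcount : |G - X * V| ≤ e * G := by
    rw [hG, ← RQ_GS, hV]
    by_cases hadm : ∀ p : ℕ, p.Prime → nuB (QH (Q1 Z) S) p < p
    · exact (H0 (QH (Q1 Z) S) (sv_QS Z (k + 1) S (by omega) hadm) X y (by omega) (by omega)
        ((Nat.pow_le_pow_right (by omega) (by omega)).trans hyX)).2.1
    · obtain ⟨h1, h2⟩ := nonadm Z (k + 1) S (by omega) X y (by omega) hadm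
      unfold Vq at h2
      rw [h1, h2]
      simp
  have hW := W_nonneg y
  have hWk : 0 ≤ W y ^ S.card := pow_nonneg hW _
  have hXV : 0 ≤ X * V := mul_nonneg (Nat.cast_nonneg _) hV0
  have hGle : G ≤ 2 * (X * V) := by
    have := (abs_le.1 hcount).2
    nlinarith
  have heG : e * G ≤ ε * (X * V) := by
    calc e * G ≤ ε / 2 * (2 * (X * V)) := mul_le_mul he2 hGle hG0 (by linarith)
      _ = _ := by ring
  have hR : ε * (X * Sing y S) = W y ^ S.card * (ε * (X * V)) := by
    rw [hS]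
    ring
  constructor
  · have e1 : ∑ n ∈ Icc 1 X, ∏ t ∈ S, Lam y (n + Z + t) = W y ^ S.card * G := by
      have := sum_eq y Z X S (fun _ => 1)
      simp only [mul_one] at this
      rw [this, hG, sum_const, nsmul_eq_mul, mul_one]
    have e2 : W y ^ S.card * G - X * Sing y S = W y ^ S.card * (G - X * V) := by
      rw [hS]
      ring
    rw [e1, hR, e2, abs_mul, abs_of_nonneg hWk]
    exact mul_le_mul_of_nonneg_left (hcount.trans heG) hWk
  · intro f hf a b ha haX hbX
    constructor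
    · intro hab
      have hnb : ∀ p : ℕ, p.Prime → p ∣ a → ¬ (p : ℤ) ∣ b := by
        intro p hp h1 h2
        have h3 := Int.dvd_coe_gcd (Int.natCast_dvd_natCast.2 h1) h2
        rw [hab] at h3
        exact hp.one_lt.ne' (Nat.dvd_one.1 (by exact_mod_cast h3))
      have h1 := H2 X y Z T S (by omega) (by omega) ((Nat.pow_le_pow_right (by omega) (by omega)).trans hyX)
        hT hST hSk f hf a b ha hnb haX hbX
      rw [← hG] at h1
      have e1 : ∑ n ∈ Icc 1 X, (∏ t ∈ S, Lam y (n + Z + t)) * (f (conf y Z T n) * mob (a * n + b)) =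
          W y ^ S.card * ∑ n ∈ GS y Z X S, f (Cfg y Z T n) * mz (a * n + b) := by
        rw [sum_eq]
        congr 1
        apply sum_congr rfl
        intro n _
        rw [conf_eq]
        rfl
      rw [e1, hR, abs_mul, abs_of_nonneg hWk]
      exact mul_le_mul_of_nonneg_left (h1.trans heG) hWk
    · have h1 := H1 X y Z T S (by omega) (by omega) ((Nat.pow_le_pow_right (by omega) (by omega)).trans hyX)
        hT hST hSk f hf a b ha haX hbX
      rw [← hG] at h1
      have e1 : ∑ n ∈ Icc 1 X, (∏ t ∈ S, Lam y (n + Z + t)) * (f (conf y Z T n) * lam (a * n + b)) =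
          W y ^ S.card * ∑ n ∈ GS y Z X S, f (Cfg y Z T n) * lz (a * n + b) := by
        rw [sum_eq]
        congr 1
        apply sum_congr rfl
        intro n _
        rw [conf_eq, lam_eq]
      rw [e1, hR, abs_mul, abs_of_nonneg hWk]
      exact mul_le_mul_of_nonneg_left (h1.trans heG) hWk

end Pool.Agent.Results.MP_0bfb7f_nt.MobiusSieveModel
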