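import Pool.Agent.H579.R.MuMainR
import Pool.Agent.H579.R.Reg

/-!
# The Möbius function along `q p + b`, `p` prime, for almost all `b` and moduli `q` up to `x ^ (1 - ρ)`

For `q = 1` and `b = 1` the sum `∑_{m ≤ y} Λ(m) μ(m + 1)` is the sum of the problem. For EVERY modulus
`q ≤ x ^ (1 - ρ)` which is not a multiple of an element of a small set `D` of integers with a large radical (so for
EVERY modulus with a small radical, for instance `q = 10 ^ m`) and for arbitrary weights `|w| ≤ 1`, all but at most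
`x / (log x) ^ A` of the integers `b ≤ x` coprime to `q` satisfy

`|∑_{m ≤ y} w(m) Λ(m) μ(q m + b)| ≤ ε x / q` for all `y ≤ x / q`.

The sums contain only about `x / q ≥ x ^ ρ` terms (the elements `n = q m + b` of a residue class modulo `q`).

Method: the sieve of squares reduces `μ` to `λ` with weights periodic modulo a fixed integer; `λ` is replaced by a
weighted sum of `λ(p) λ(n / p)` over the primes `p` in `(x ^ κ₁, x ^ κ₂]` by the inequality of Turan and Kubilius for
the numbers `q p' + b` (Bombieri-Vinogradov); the additive frequencies near a fraction with denominator `q r` are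
treated with the characters modulo `q r`, whose conductors are small or exceptional (large sieve); a conductor with a
small radical is not exceptional (Postnikov's formula and Vinogradov's method, `H567/PP`, `R/BdR`).
-/

set_option autoImplicit false

namespace Pool.Agent.Results.MP_0bfb7f_nt.RegularSlopes

open Finset

/-- the radical of `d`: the product of the primes dividing `d` -/
def rad (d : ℕ) : ℕ := ∏ p ∈ d.primeFactors, p

open Classical in
/-- Let `ρ, ε > 0` and `A` be given. There is a `c` such that for all `B` and all large `x` there is a set `D` of at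
most `(log x) ^ c` integers with a radical larger than `(log x) ^ B` such that for EVERY integer `1 ≤ q ≤ x ^ (1 - ρ)`
which has a radical `≤ (log x) ^ B` or is not divisible by an element of `D` and for all complex weights `|w n| ≤ 1`, all but at most `x / (log x) ^ A` of the
integers `1 ≤ b ≤ x` coprime to `q` satisfy `|∑ m ≤ y, w(m) Λ(m) μ(q m + b)| ≤ ε x / q` for all `y` with
`q y ≤ x`. -/
theorem result (ρ ε : ℝ) (hρ : 0 < ρ) (hε : 0 < ε) (A : ℕ) :
    ∃ c : ℕ, ∀ B : ℕ, ∃ x₀ : ℕ, ∀ x : ℕ, x₀ ≤ x →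
    ∃ D : Finset ℕ, (D.card : ℝ) ≤ Real.log x ^ c ∧ (∀ d ∈ D, Real.log x ^ B < (rad d : ℝ)) ∧
    ∀ q : ℕ, 1 ≤ q → (q : ℝ) ≤ (x : ℝ) ^ (1 - ρ) → ((rad q : ℝ) ≤ Real.log x ^ B ∨ ∀ d ∈ D, ¬ d ∣ q) → ∀ w : ℕ → ℂ, (∀ n, ‖w n‖ ≤ 1) →
    (((Icc 1 x).filter (fun b => b.Coprime q ∧ ∃ y : ℕ, q * y ≤ x ∧
      ε * (x / q) < ‖∑ m ∈ Icc 1 y, w m * (ArithmeticFunction.vonMangoldt m : ℝ) *
        ((ArithmeticFunction.moebius (q * m + b) : ℤ) : ℂ)‖)).card : ℝ) ≤ x / Real.log x ^ A := by
  obtain ⟨c, h1⟩ := Pool.Agent.H579.R.mu_formsR ρ ε hρ hε A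
  refine ⟨c, fun B => ?_⟩
  obtain ⟨x₀, h2⟩ := h1 B
  refine ⟨x₀, fun x hx => ?_⟩
  obtain ⟨D, hD1, hD2, hD3⟩ := h2 x hx
  exact ⟨D, hD1, hD2, fun q hq1 hq hqD w hw => hD3 q hq1 hq (Pool.Agent.H579.R.reg_of_rad hq1 hD2 hqD) w hw⟩

end Pool.Agent.Results.MP_0bfb7f_nt.RegularSlopes
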