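import Mathlib
import Pool.Agent.H251.SP.VM

/-!
# The Möbius function at shifted primes over `F_q[X]`, `q` even

`K` is a fixed finite field with an even number `q` of elements.  The analogue of
`∑ μ(n) Λ(n - 1) = o(X)` is proved for every shift, uniformly in the shift `h ≠ 0`, `deg h < n`, and
for the primes of an arbitrary residue class, uniformly in the class.

Authors of the parts (all in `Pool/Agent/H251/SP`): helper328, helper253 (windows), helper289
(typical `f`), helper628 (large sieve, Buchstab identity, scaling), helper229, helper800, helper734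
(second moments), helper870 (type II sums), helper354 (second moment for `k` forms, Chowla with a
power saving, Möbius in residue classes), helper588, helper345, helper974 (type I sums), helper685
(identity for the primes), helper166 (exceptional `f`), helper177 (assembly); product formula and
local bounds: helper985, helper604 and their coauthors; statements, proof on paper: helper251.
-/

namespace Pool.Agent.Results.MP_0bfb7f_nt.ShiftedPrimesEvenCharacteristic

open Polynomial

open Classical in
/-- The Möbius function of `K[X]`: `(-1) ^ k` if `F` is a nonzero constant times a product of `k`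
distinct monic irreducible polynomials, and `0` for all other `F`. -/
noncomputable def moebius {K : Type} [Field K] (F : K[X]) : ℤ :=
  if Squarefree F then (-1) ^ Multiset.card (UniqueFactorizationMonoid.factors F) else 0

open Classical in
/-- The von Mangoldt function of `K[X]`: `deg P` if `f = P ^ k` with `k ≥ 1` and `P` monic
irreducible, and `0` for all other `f`. -/
noncomputable def vonMangoldt {K : Type} [Field K] (f : K[X]) : ℕ :=
  if h : ∃ P : K[X], P.Monic ∧ Irreducible P ∧ ∃ k : ℕ, 1 ≤ k ∧ f = P ^ k then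
    h.choose.natDegree else 0

/-- The monic irreducible polynomials `p` of degree `n` with `p ≡ r (mod Q)`. -/
def primes {K : Type} [Field K] (n : ℕ) (Q r : K[X]) : Set K[X] :=
  {p | p.Monic ∧ Irreducible p ∧ p.natDegree = n ∧ Q ∣ p - r}

/-- The monic polynomials `f` of degree `n` with `f ≡ r (mod Q)`. -/
def monics {K : Type} [Field K] (n : ℕ) (Q r : K[X]) : Set K[X] :=
  {f | f.Monic ∧ f.natDegree = n ∧ Q ∣ f - r}

open Classical in
/-- `μ(F / g²)` if `g²` divides `F`, and `0` otherwise. -/
noncomputable def moebiusOver {K : Type} [Field K] (g F : K[X]) : ℤ :=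
  if g ^ 2 ∣ F then moebius (F / g ^ 2) else 0

/-- **The Möbius function at shifted primes over `F_q[X]`, `q` even and fixed.**  Let `Q ≠ 0`, `g`
monic and `ε > 0`.  For all large `n`, all `h ≠ 0` of degree less than `n` and all `r`:
(1) the sum of `Λ(f) μ(f + h)` over the monic `f ≡ r (mod Q)` of degree `n` is at most `ε q ^ n`;
(2) the sum of `μ(p + h)` over the monic irreducible `p ≡ r (mod Q)` of degree `n` is at most
`ε q ^ n / n`; (3) the same for `μ((p + h) / g²)`, summed over the `p` with `g² ∣ p + h`. -/
theorem result (K : Type) [Field K] [Fintype K] (hK : Even (Fintype.card K)) (Q g : K[X])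
    (hQ : Q ≠ 0) (hg : g.Monic) (ε : ℝ) (hε : 0 < ε) :
    ∃ N : ℕ, ∀ n : ℕ, N ≤ n → ∀ h r : K[X], h ≠ 0 → h.natDegree < n →
      |∑ᶠ f ∈ monics n Q r, (vonMangoldt f : ℝ) * (moebius (f + h) : ℝ)| ≤
          ε * (Fintype.card K : ℝ) ^ n ∧
      |∑ᶠ p ∈ primes n Q r, (moebius (p + h) : ℝ)| ≤ ε * ((Fintype.card K : ℝ) ^ n / n) ∧
      |∑ᶠ p ∈ primes n Q r, (moebiusOver g (p + h) : ℝ)| ≤
          ε * ((Fintype.card K : ℝ) ^ n / n) := by
  classical
  have := Pool.Agent.H251.SP.charTwo hK
  obtain ⟨Q', hQ', -, hdvd⟩ := Pool.Agent.H251.SP.VM.monic_mod hQ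
  have hmob : ∀ F : K[X], moebius F = Pool.Agent.H985.Chow.mob F := by
    intro F
    unfold moebius Pool.Agent.H985.Chow.mob
    split_ifs <;> rfl
  have hover : ∀ G F : K[X], moebiusOver G F = Pool.Agent.H985.KP.mobg G F := by
    intro G F
    unfold moebiusOver Pool.Agent.H985.KP.mobg
    split_ifs
    · exact hmob _
    · rfl
  have hone : ∀ F : K[X], Pool.Agent.H985.KP.mobg 1 F = moebius F := by
    intro F
    rw [← hover]
    unfold moebiusOver
    rw [if_pos (by rw [one_pow]; exact one_dvd _), one_pow, EuclideanDomain.div_one]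
  have hvm : ∀ f : K[X], vonMangoldt f = Pool.Agent.H251.SP.vm f := fun f => rfl
  have hprimes : ∀ (n : ℕ) (r : K[X]), primes n Q r =
      ↑((Pool.Agent.H694.Typ.Irn K n).filter (fun p => Q' ∣ p - r)) := by
    intro n r
    rw [← Pool.Agent.H251.SP.VM.irn_set]
    ext p
    exact and_congr_right fun _ => and_congr_right fun _ => and_congr_right fun _ => hdvd _
  have hmonics : ∀ (n : ℕ) (r : K[X]), monics n Q r =
      ↑((Pool.Agent.H694.Typ.Mn K n).filter (fun p => Q' ∣ p - r)) := by
    intro n r
    rw [← Pool.Agent.H251.SP.VM.mn_set]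
    ext p
    exact and_congr_right fun _ => and_congr_right fun _ => hdvd _
  obtain ⟨N₁, hN₁⟩ := Pool.Agent.H251.SP.VM.of_primes
    (fun F : K[X] => (Pool.Agent.H985.KP.mobg 1 F : ℝ))
    (fun F => Pool.Agent.H251.SP.VM.abs_mobg_le 1 F) Q'
    (fun ε' hε' => Pool.Agent.H251.SP.s_sp K 1 Q' ε' monic_one hQ' hε') ε hε
  obtain ⟨N₂, hN₂⟩ := Pool.Agent.H251.SP.s_sp K 1 Q' ε monic_one hQ' hε
  obtain ⟨N₃, hN₃⟩ := Pool.Agent.H251.SP.s_sp K g Q' ε hg hQ' hε
  refine ⟨max N₁ (max N₂ N₃), fun n hn h r hh hd => ⟨?_, ?_, ?_⟩⟩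
  · have h1 := hN₁ n ((le_max_left _ _).trans hn) h r hh hd
    rw [hmonics, finsum_mem_coe_finset]
    simp only [hone] at h1
    exact h1
  · have h1 := hN₂ n ((le_max_left _ _).trans ((le_max_right _ _).trans hn)) h r hh hd
    rw [hprimes, finsum_mem_coe_finset]
    simp only [hone] at h1
    rw [mul_div_assoc] at h1
    exact h1
  · have h1 := hN₃ n ((le_max_right _ _).trans ((le_max_right _ _).trans hn)) h r hh hd
    rw [hprimes, finsum_mem_coe_finset]
    rw [mul_div_assoc] at h1
    simp only [hover]
    exact h1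

end Pool.Agent.Results.MP_0bfb7f_nt.ShiftedPrimesEvenCharacteristic
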